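import Pool.Agent.Lib.PRank.Final

/-! The constant in the linear bound does not depend on the field. -/

namespace Pool.Agent.Work.MP_c3ac7c_co

open MvPolynomial Pool.Agent.Lib.PRank

lemma isML_deg {ι V F : Type} [Fintype ι] [DecidableEq ι] [Fintype V] [Field F] {sl : V → ι}
    {f : MvPolynomial V F} (hf : IsML sl Finset.univ f) : f.totalDegree ≤ Fintype.card ι := by
  classical
  refine Finset.sup_le fun m hm => le_of_eq ?_
  have h := hf (mem_support_iff.1 hm)
  have h2 : ∑ k, (Finsupp.weight (wt sl) m) k = Fintype.card ι := by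
    rw [h]
    simp [ind]
  rw [← h2, Finsupp.weight_apply, Finsupp.sum, Finsupp.sum]
  simp only [Finset.sum_apply, Pi.smul_apply, wt]
  rw [Finset.sum_comm]
  refine Finset.sum_congr rfl fun v _ => ?_
  rw [← Finset.smul_sum]
  simp

open Classical in
lemma zeros_le {V F : Type} [Fintype V] [Field F] [Fintype F] {f : MvPolynomial V F} (h0 : f ≠ 0)
    {D : ℕ} (hD : f.totalDegree ≤ D) :
    ((Finset.univ.filter fun x : V → F => eval x f = 0).card : ℝ) / Fintype.card (V → F) ≤
      D / Fintype.card F := by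
  let e := Fintype.equivFin V
  have h1 : rename e f ≠ 0 := fun h => h0 (rename_injective e e.injective (by rw [h, map_zero]))
  have h2 := schwartz_zippel_totalDegree h1 (Finset.univ : Finset F)
  have h3 : (rename e f).totalDegree ≤ D := (totalDegree_rename_le _ _).trans hD
  have h4 : (Finset.univ.filter fun x : V → F => eval x f = 0).card =
      ((Fintype.piFinset fun _ : Fin (Fintype.card V) => (Finset.univ : Finset F)).filter
        fun x => eval x (rename e f) = 0).card := by
    symm
    refine Finset.card_bij (fun x _ => x ∘ e) ?_ ?_ ?_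
    · intro x hx
      simpa [eval_rename] using hx
    · intro x _ y _ h
      funext i
      simpa using congrFun h (e.symm i)
    · intro y hy
      refine ⟨y ∘ e.symm, ?_, by ext v; simp⟩
      have : (y ∘ e.symm) ∘ e = y := by ext v; simp
      simpa [eval_rename, this] using hy
  have h5 := h2.trans (div_le_div_of_nonneg_right (show ((rename e f).totalDegree : ℚ≥0) ≤ D by
    exact_mod_cast h3) (by positivity))
  rw [← h4, Finset.card_univ] at h5
  rw [Fintype.card_fun]
  have h6 := (NNRat.cast_le (K := ℝ)).2 h5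
  push_cast at h6 ⊢
  exact h6

/-- Partition rank is at most linear in the analytic rank, uniformly in the field. -/
theorem exists_gen_uniform (D : ℕ) : ∃ C : ℝ, ∀ (F : Type) [Field F] [Fintype F]
    (ι V J : Type) [Fintype ι] [DecidableEq ι] [Nonempty ι] [Fintype V] [Fintype J]
      (sl : V → ι), Fintype.card ι = D → ∀ T : J → MvPolynomial V F,
      (∀ j, IsML sl Finset.univ (T j)) → 0 < nz T ∧ ∃ r : ℕ,
        (r : ℝ) ≤ C * (-Real.logb (Fintype.card F) ((nz T : ℝ) / Nat.card (V → F))) ∧
        Gen sl r T := by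
  classical
  obtain ⟨C, -, hC⟩ := gen_of_arle D
  let c1 : ℝ := -Real.logb ((D : ℝ) ^ 2 + 2) (1 - 1 / 2 ^ (D + 1))
  have h2 : (0 : ℝ) < 1 / 2 ^ (D + 1) := by positivity
  have h3 : (1 : ℝ) / 2 ^ (D + 1) < 1 := by
    rw [div_lt_one (by positivity)]
    exact one_lt_pow₀ (by norm_num) (by omega)
  have hD2 : (1 : ℝ) < (D : ℝ) ^ 2 + 2 := by nlinarith [sq_nonneg (D : ℝ)]
  have hc1 : 0 < c1 := neg_pos.mpr (Real.logb_neg hD2 (by linarith) (by linarith))
  let c : ℝ := min c1 (1 / 2)
  have hc : 0 < c := lt_min hc1 (by norm_num)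
  refine ⟨C * (1 + 1 / c), fun F _ _ ι V J _ _ _ _ _ sl hD T hT => ?_⟩
  have hq : (1 : ℝ) < Fintype.card F := by exact_mod_cast Fintype.one_lt_card
  have hnz : nz T = (Finset.univ.filter fun x : V → F => ∀ j, eval x (T j) = 0).card := by
    unfold nz
    rw [Nat.subtype_card (Finset.univ.filter fun x : V → F => ∀ j, eval x (T j) = 0) (by simp)]
  have hN : (0 : ℝ) < Nat.card (V → F) := by exact_mod_cast Nat.card_pos
  have hpos' : 0 < nz T := by
    rw [hnz]
    refine Finset.card_pos.mpr ⟨0, ?_⟩
    simp only [Finset.mem_filter, Finset.mem_univ, true_and]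
    intro j
    rw [← mem_pt, pt_zero_eq]
    exact (hT j).mem_idealOfVars Finset.univ_nonempty
  refine ⟨hpos', ?_⟩
  have hpos : (0 : ℝ) < nz T := by exact_mod_cast hpos'
  by_cases h0 : ∀ j, T j = 0
  · refine ⟨0, ?_, Gen.zero h0⟩
    have : nz T = Nat.card (V → F) := by
      rw [hnz, Finset.filter_true_of_mem (by simp [h0]), Finset.card_univ, Nat.card_eq_fintype_card]
    rw [this, div_self hN.ne']
    simp
  push Not at h0
  obtain ⟨j, hj⟩ := h0
  have hle : (nz T : ℝ) / Nat.card (V → F) ≤ 1 - 1 / 2 ^ (D + 1) := by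
    have h4 := card_le_card_ne _ _ (hT j) hj
    have h5 : nz T + (Finset.univ.filter fun x : V → F => eval x (T j) ≠ 0).card ≤
        Fintype.card (V → F) := by
      rw [hnz, ← Finset.card_union_of_disjoint]
      · exact Finset.card_le_univ _
      · rw [Finset.disjoint_filter]
        exact fun x _ h h' => h' (h j)
    rw [Finset.card_univ, hD] at h4
    rw [Nat.card_eq_fintype_card] at hN ⊢
    rw [div_le_iff₀ hN]
    have h6 : (Fintype.card (V → F) : ℝ) ≤
      2 ^ D * (Finset.univ.filter fun x : V → F => eval x (T j) ≠ 0).card := by exact_mod_cast h4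
    have h7 : (nz T : ℝ) + (Finset.univ.filter fun x : V → F => eval x (T j) ≠ 0).card ≤
        Fintype.card (V → F) := by exact_mod_cast h5
    generalize ((Finset.univ.filter fun x : V → F => eval x (T j) ≠ 0).card : ℝ) = m at h6 h7
    have h8 : 1 / 2 ^ (D + 1) * (Fintype.card (V → F) : ℝ) ≤ m := by
      rw [one_div, inv_mul_le_iff₀ (by positivity), pow_succ]
      have : (0 : ℝ) ≤ 2 ^ D * m := hN.le.trans h6
      linarith
    linarith
  have hle2 : (nz T : ℝ) / Nat.card (V → F) ≤ D / Fintype.card F := by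
    refine le_trans ?_ (zeros_le hj ((isML_deg (hT j)).trans hD.le))
    rw [Nat.card_eq_fintype_card] at hN ⊢
    refine div_le_div_of_nonneg_right ?_ hN.le
    rw [hnz]
    exact_mod_cast Finset.card_le_card fun x hx => by
      simp only [Finset.mem_filter, Finset.mem_univ, true_and] at hx ⊢
      exact hx j
  have hβ := div_pos hpos hN
  set β : ℝ := (nz T : ℝ) / Nat.card (V → F) with hβd
  set A : ℝ := -Real.logb (Fintype.card F) β with hA
  have hlq : 0 < Real.log (Fintype.card F) := Real.log_pos hq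
  have hcA : c ≤ A := by
    rcases le_total (Fintype.card F : ℝ) ((D : ℝ) ^ 2 + 2) with h | h
    · refine (min_le_left _ _).trans ?_
      have h4 : Real.log β ≤ Real.log (1 - 1 / 2 ^ (D + 1)) := Real.log_le_log hβ hle
      have h5 : Real.log (1 - 1 / 2 ^ (D + 1)) ≤ 0 := Real.log_nonpos (by linarith) (by linarith)
      have h6 : Real.log (Fintype.card F) ≤ Real.log ((D : ℝ) ^ 2 + 2) :=
        Real.log_le_log (by linarith) h
      simp only [c1, hA, Real.logb, ← neg_div]
      exact div_le_div₀ (by linarith) (by linarith) hlq h6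
    · refine (min_le_right _ _).trans ?_
      have h4 : β ^ 2 ≤ (Fintype.card F : ℝ)⁻¹ := by
        refine (pow_le_pow_left₀ hβ.le hle2 2).trans ?_
        rw [div_pow, div_le_iff₀ (by positivity), sq (Fintype.card F : ℝ),
          inv_mul_cancel_left₀ (by linarith)]
        linarith
      have h5 := Real.log_le_log (by positivity) h4
      rw [Real.log_pow, Real.log_inv] at h5
      rw [hA, Real.logb, ← neg_div, le_div_iff₀ hlq]
      push_cast at h5
      linarith
  refine ⟨C * ⌈A⌉₊, ?_, hC ι V J F sl hD T hT _ ?_⟩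
  · have h9 : (⌈A⌉₊ : ℝ) ≤ A + 1 := (Nat.ceil_lt_add_one (hc.le.trans hcA)).le
    have h10 : 1 ≤ 1 / c * A := by
      rw [one_div, inv_mul_eq_div, one_le_div hc]; exact hcA
    push_cast
    rw [mul_assoc]
    exact mul_le_mul_of_nonneg_left (by linarith) (Nat.cast_nonneg _)
  · have h9 : -(⌈A⌉₊ : ℝ) ≤ Real.logb (Fintype.card F) β := by
      have := Nat.le_ceil A
      linarith
    rw [Real.le_logb_iff_rpow_le hq hβ, Real.rpow_neg (by linarith),
      Real.rpow_natCast, hβd, le_div_iff₀ hN, inv_mul_le_iff₀ (by positivity), Nat.card_fun,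
      ← Nat.card_eq_fintype_card, mul_comm] at h9
    unfold ARle
    exact_mod_cast h9

open Classical in
/-- the character sum of a multilinear form counts the points where a slot form vanishes -/
theorem char_sum {κ F : Type} [Fintype κ] [DecidableEq κ] [Field F] [Fintype F] {n : κ → ℕ}
    (T : MultilinearMap F (fun i => Fin (n i) → F) F) (i₀ : κ) (χ : AddChar F ℂ) (hχ : χ ≠ 1) :
    ∑ x : (∀ i, Fin (n i) → F), χ (T x) =
      (Nat.card {x : ∀ i, Fin (n i) → F // ∀ y, T (Function.update x i₀ y) = 0} : ℂ) := by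
  have hY : (Fintype.card (Fin (n i₀) → F) : ℂ) ≠ 0 := by exact_mod_cast Fintype.card_ne_zero
  have h1 : ∑ p : (∀ i, Fin (n i) → F) × (Fin (n i₀) → F), χ (T p.1) =
      ∑ p : (∀ i, Fin (n i) → F) × (Fin (n i₀) → F), χ (T (Function.update p.1 i₀ p.2)) := by
    let e : (∀ i, Fin (n i) → F) × (Fin (n i₀) → F) → (∀ i, Fin (n i) → F) × (Fin (n i₀) → F) :=
      fun p => (Function.update p.1 i₀ p.2, p.1 i₀)
    have he : Function.Involutive e := fun p => by simp [e]
    exact (Equiv.sum_comp he.toPerm fun p => χ (T p.1)).symm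
  have h2 : ∀ x : ∀ i, Fin (n i) → F, ∑ y, χ (T (Function.update x i₀ y)) =
      if ∀ y, T (Function.update x i₀ y) = 0 then (Fintype.card (Fin (n i₀) → F) : ℂ) else 0 := by
    intro x
    split_ifs with h
    · simp [h]
    · push Not at h
      obtain ⟨y0, hy0⟩ := h
      let ψ : AddChar (Fin (n i₀) → F) ℂ := χ.compAddMonoidHom (T.toLinearMap x i₀).toAddMonoidHom
      have hψ : ψ ≠ 0 := by
        intro h
        apply hχ
        ext t
        have h3 := DFunLike.congr_fun h ((t / T (Function.update x i₀ y0)) • y0)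
        simpa [ψ, div_mul_cancel₀ _ hy0] using h3
      exact (AddChar.sum_eq_zero_iff_ne_zero (ψ := ψ)).2 hψ
  rw [Fintype.sum_prod_type, Fintype.sum_prod_type] at h1
  simp only [h2, Finset.sum_const, Finset.card_univ, nsmul_eq_mul] at h1
  rw [← Finset.mul_sum, ← Finset.sum_filter, Finset.sum_const, nsmul_eq_mul, mul_comm] at h1
  rw [mul_right_cancel₀ hY h1, Nat.subtype_card
    (Finset.univ.filter fun x : ∀ i, Fin (n i) → F => ∀ y, T (Function.update x i₀ y) = 0) (by simp)]

end Pool.Agent.Work.MP_c3ac7c_co
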